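import Pool.Agent.Lib.MP_bf61d2_nt.Trim.Artin.LA.PublicL63
import Pool.Agent.Lib.MP_bf61d2_nt.Trim.Artin.LA.T4L63
import Pool.Agent.Lib.MP_bf61d2_nt.Trim.Artin.Public63

set_option autoImplicit false

/-!
The Artin twists of the L-functions of the elliptic curves over an arbitrary number field `K` near
the edge `re s = 3/2` of the half plane of absolute convergence, at every small scale and uniformly
in the curve.

`M/K` is a finite Galois extension with group `G`, `Fr v` a Frobenius element at `v`, the `ρ j` are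
complex representations of `G`.  `twistL E ρ Fr S s` is the product over the finite places `v`
outside the finite set `S` of `det (L_v (q_v ^ (-s) ρ (Fr v)))⁻¹`, the L-function of the twist of
`E` by `ρ` without the Euler factors at the places in `S`.  `logTraceSum E φ s` is the sum over all
finite places of `φ (a_v / √q_v) q_v ^ (1/2 - s) log q_v`.  No continuation of the L-functions is
assumed; `logDeriv f` is `f' / f`.

First part: the products are holomorphic without zeros in the half plane.  Second part: if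
`x y ≤ φ x + ψ y` for `|x| ≤ 2`, a linear combination of the `- L_j' / L_j` is at most the sum of
`logTraceSum E φ` and of `1 / (σ - 3/2)` times the mean value of `ψ` on the values of the same
combination of the characters.  For `φ = 0`, `ψ y = 2 |y|` this uses only the bound of Hasse.  Third
part: if the `ρ j` are irreducible and the pairs `(ρ j, t j)` different, the squares of the
`|L_j' / L_j|` sum to at most the second moment of the traces divided by `σ - 3/2`.  Fourth part: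
for two points of the line off the real point, neither equal nor complex conjugate, the sum of the
two `|L_j' / L_j|` is at most `κ / (σ - 3/2)` with `κ < 2`.
-/

namespace Pool.Agent.Results.MP_bf61d2_nt.ArtinEdge

open Filter Topology NumberField IsDedekindDomain
open Pool.Agent.Lib.MP_bf61d2_nt.Artin Pool.Agent.Lib.MP_bf61d2_nt.Artin.LA

theorem result (K : Type*) [Field K] [NumberField K]
    (M : Type*) [Field M] [NumberField M] [Algebra K M] [IsGalois K M]
    (Fr : HeightOneSpectrum (𝓞 K) → Gal(M/K)) (hFr : ∀ v, IsFrobenius v (Fr v))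
    (S : Set (HeightOneSpectrum (𝓞 K))) (hS : S.Finite) (n : ℕ) (V : Fin n → Type*)
    [∀ j, AddCommGroup (V j)] [∀ j, Module ℂ (V j)] [∀ j, FiniteDimensional ℂ (V j)]
    (ρ : ∀ j, Representation ℂ Gal(M/K) (V j)) (t : Fin n → ℝ) :
    (∀ (E : WeierstrassCurve K) [E.IsElliptic] (j : Fin n) (s : ℂ), 3 / 2 < s.re →
      DifferentiableAt ℂ (twistL E (ρ j) Fr S) s ∧ twistL E (ρ j) Fr S s ≠ 0) ∧
    (∀ (c : Fin n → ℂ) (φ ψ : ℝ → ℝ), Continuous φ → Continuous ψ →
      (∀ x y : ℝ, |x| ≤ 2 → x * y ≤ φ x + ψ y) → ∃ B : ℝ,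
      Tendsto (fun X : ℝ => X⁻¹ * ∫ u in (0 : ℝ)..X,
        (∑ᶠ g : Gal(M/K), ψ (∑ j, c j * ((ρ j).character g *
          Complex.exp (-(t j * u) * Complex.I))).re) / Nat.card Gal(M/K)) atTop (𝓝 B) ∧
      ∀ ε : ℝ, 0 < ε → ∀ᶠ σ : ℝ in 𝓝[>] (3 / 2), ∀ (E : WeierstrassCurve K) [E.IsElliptic],
        -(∑ j, c j * logDeriv (twistL E (ρ j) Fr S) (σ + t j * Complex.I)).re ≤
          logTraceSum E φ σ + (B + ε) / (σ - 3 / 2)) ∧
    ((∀ j, (ρ j).IsIrreducible) → (∀ i j, i ≠ j → t i = t j → IsEmpty ((ρ i).Equiv (ρ j))) →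
      ∀ ε : ℝ, 0 < ε → ∀ᶠ σ : ℝ in 𝓝[>] (3 / 2), ∀ (E : WeierstrassCurve K) [E.IsElliptic],
        (∀ τ : ℝ, ∑ j, ‖logDeriv (twistL E (ρ j) Fr S) (σ + (t j + τ : ℝ) * Complex.I)‖ ^ 2 ≤
          (logTraceSum E (fun x => x ^ 2) σ + ε / (σ - 3 / 2)) / (σ - 3 / 2)) ∧
        logTraceSum E (fun x => x ^ 2) σ ≤ (4 + ε) / (σ - 3 / 2)) ∧
    ∀ i j : Fin n, (ρ i).IsIrreducible → (ρ j).IsIrreducible → t i ≠ 0 → t j ≠ 0 →
      (t i = t j → (ρ i).character ≠ (ρ j).character) →
      (t i = -t j → (ρ i).character ≠ fun g => (starRingEnd ℂ) ((ρ j).character g)) →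
      ∃ κ : ℝ, κ < 2 ∧ ∀ᶠ σ : ℝ in 𝓝[>] (3 / 2), ∀ (E : WeierstrassCurve K) [E.IsElliptic],
        ‖logDeriv (twistL E (ρ i) Fr S) (σ + t i * Complex.I)‖ +
          ‖logDeriv (twistL E (ρ j) Fr S) (σ + t j * Complex.I)‖ ≤ κ / (σ - 3 / 2) := by
  refine ⟨fun E _ j s hs => holo_publicL Fr hS (ρ j) E hs, fun c φ ψ hφ hψ h => ?_,
    fun hirr hne ε hε => ?_, fun i j hi hj ht ht' h h' => ?_⟩
  · obtain ⟨B, hB, h1⟩ := transport_publicL hFr hS ρ t c hφ hψ h
    exact ⟨B, hB, fun ε hε => (h1 ε hε).mono fun σ h E _ => h E⟩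
  · exact (moment_publicL hFr hS ρ t hirr hne hε).mono fun σ h E _ =>
      ⟨fun τ => (h E τ).1, (h E 0).2⟩
  · obtain ⟨κ, hκ, h1⟩ := pair_publicL hFr hS (ρ i) (ρ j) hi hj ht ht' h h'
    exact ⟨κ, hκ, h1.mono fun σ h E _ => h E⟩

end Pool.Agent.Results.MP_bf61d2_nt.ArtinEdge
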