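import Pool.Agent.Lib.MP_bf61d2_nt.Trim.Artin.K8x63
import Pool.Agent.Lib.MP_bf61d2_nt.Trim.Artin.LA.EDGEU77
import Pool.Agent.Lib.MP_bf61d2_nt.Trim.Joint.Main

set_option autoImplicit false

/-!
The L-functions of elliptic curves near the edge `re s = 3/2` of the half plane of absolute
convergence, at every small scale: two classes of curves over a number field `F` which come from a
smaller field `K`.

`EdgeBoundU 𝓔 B`, for a set `𝓔` of curves over `F`, says that the L-functions of the curves in `𝓔`
are holomorphic without zeros in the half plane and that for every `ε > 0`, with thresholds which do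
not depend on the curve, `|L'/L (s + i t)|` is at most `(2 B + ε) / (s - 3/2)` and
`|log |L(s + i t)||` at most `(2 B + ε) log (1 / (s - 3/2))` for real `s > 3/2` near `3/2`, uniformly
in real `t`, that for each `t ≠ 0` the same holds with `4 B / π` in place of `2 B`, and that the sum
of the first coefficients up to `x` is at most `x ^ (3/2) (log x) ^ (-1 + 2 B + ε)` for large `x`.

First part: `F/K` is any finite extension, and `𝓔` the set of the quadratic twists by a fixed
`d ∈ F` of all elliptic curves over `K`; `M/K` is a Galois extension containing `F' = F(√d)`, and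
`B` is the mean over its group of the absolute value of the number of embeddings of `F'` in `M`
fixed by `g` minus the number of embeddings of `F` fixed by `g`.

Second part: `F/K` is a Galois extension of degree `n`, and the conjugates of `E` over `K` are, in
terms of local polynomials at almost all places, quadratic twists of `E`, so that `E` is a
`K`-curve (by the theorem of Faltings two curves with the same local polynomials at almost all
places are isogenous); `m` is the number of the conjugates which have the local polynomials
of `E`.
-/

namespace Pool.Agent.Results.MP_bf61d2_nt.KCurves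

open NumberField Pool.Agent.Lib.MP_bf61d2_nt Pool.Agent.Lib.MP_bf61d2_nt.Artin
open Pool.Agent.Lib.MP_bf61d2_nt.Artin.LA

theorem result.{u, v} (K : Type u) [Field K] [NumberField K] :
    (∀ (M : Type v) [Field M] [NumberField M] [Algebra K M] [IsGalois K M]
      (F F' : IntermediateField K M) (d : F) (θ : M),
      θ ^ 2 = d → ¬ IsSquare d → F' = F ⊔ IntermediateField.adjoin K {θ} →
      EdgeBoundU {E : WeierstrassCurve F | ∃ E₀ : WeierstrassCurve K, E₀.IsElliptic ∧
        E = qt (E₀.baseChange F) d} (meanFix F F')) ∧
    ∀ (F : Type v) [Field F] [NumberField F] [Algebra K F] [IsGalois K F]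
      (E : WeierstrassCurve F) [E.IsElliptic],
      ((∃ j : K, algebraMap K F j = E.j ∧ E.j ≠ 0 ∧ E.j ≠ 1728) ∨ IsKCurve K E) →
      ∃ B : ℝ, B ≤ Real.sqrt (stab K E / Module.finrank K F) ∧
        (stab K E < Module.finrank K F → B < Real.sqrt (stab K E / Module.finrank K F)) ∧
        EdgeBoundU {E} B :=
  ⟨fun _ _ _ _ _ F F' d θ h1 h2 h3 => edge_twistU77 F F' d θ h1 h2 h3,
    fun _ _ _ _ _ E _ h => edge_kcurveU77 E
      (h.elim (fun ⟨j, hj, h0, h1⟩ => isKCurve_of_j E j hj h0 h1) id)⟩

end Pool.Agent.Results.MP_bf61d2_nt.KCurves
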