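import Pool.Agent.Lib.MP_bf61d2_nt.Trim.Artin.H.CONV84
import Pool.Agent.Lib.MP_bf61d2_nt.Trim.Artin.H.DefsH
import Pool.Agent.Lib.MP_bf61d2_nt.Trim.Artin.MO.StmtsM63
import Pool.Agent.Lib.MP_bf61d2_nt.Trim.Artin.UK.StmtsU84
import Pool.Agent.Lib.MP_bf61d2_nt.Trim.Joint.Main
import Pool.Agent.Lib.MP_bf61d2_nt.Trim.MV59U.MonoU59
import Pool.Agent.Lib.MP_bf61d2_nt.Trim.MV59Y.LFunY

set_option autoImplicit false

/-!
MP_bf61d2_nt: let `E` be an elliptic curve over a number field `K` of degree `n`.  Mean values of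
the coefficients of the L-functions of the twists of the quadratic twists `E_d` of `E` over the
extensions `F` of `K` of degree at most `m` by the unitary Hecke characters `ψ N ^ (-it)` of `F`: at
most `4 (1 - k) ^ 2 / (η - 2 k - 2 (n m - 1) k') ^ 2` of these twists, of size up to
`exp ((log x) ^ k)` and with `log |disc F| ≤ (log x) ^ k'`, have a large mean value at some point of
the range from `x` to `exp ((log x) ^ (1 + κ))`, uniformly in `K` and `E`.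
-/

namespace Pool.Agent.Results.MP_bf61d2_nt.MeanValues

open NumberField IsDedekindDomain
open scoped Classical

universe u

section Defs

variable {K : Type u} [Field K] [NumberField K]

/-- `ψ` is a unitary Hecke character of `K` modulo `𝔪` of infinity type `(a, b)`, trivial on the
positive real numbers, as a function on the ideals, extended by zero to the ideals not prime
to `𝔪`. -/
def IsHecke (𝔪 : Ideal (𝓞 K)) (a : {w : InfinitePlace K // w.IsComplex} → ℤ)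
    (b : InfinitePlace K → ℝ) (ψ : Ideal (𝓞 K) →*₀ ℂ) : Prop :=
  ∑ w, b w = 0 ∧
  (∀ γ : 𝓞 K, γ ≠ 0 → γ - 1 ∈ 𝔪 → (∀ φ : K →+* ℝ, 0 < φ γ) → ψ (Ideal.span {γ}) =
    (∏ w : {w : InfinitePlace K // w.IsComplex},
      (w.1.embedding (γ : K) / (w.1 (γ : K) : ℂ)) ^ (a w)) *
      ∏ w : InfinitePlace K, (w (γ : K) : ℂ) ^ ((b w : ℂ) * Complex.I)) ∧
  ∀ v : HeightOneSpectrum (𝓞 K), ψ v.asIdeal = 0 ↔ 𝔪 ≤ v.asIdeal

/-- The quadratic twist of `E` by `d`. -/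
noncomputable def twist (E : WeierstrassCurve K) (d : ℕ) : WeierstrassCurve K :=
  ⟨0, (d : K) * (E.b₂ / 4), 0, (d : K) ^ 2 * (E.b₄ / 2), (d : K) ^ 3 * (E.b₆ / 4)⟩

/-- The coefficients `a_l(E × ψ)` of the L-function of `E` twisted by `ψ`: Mathlib's
`WeierstrassCurve.LFunction` with the local factors `1 / P_v(T)` replaced by `1 / P_v(ψ(v) T)`. -/
noncomputable def coeff (E : WeierstrassCurve K) (ψ : Ideal (𝓞 K) →*₀ ℂ) :
    ArithmeticFunction ℂ :=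
  ArithmeticFunction.eulerProduct fun v : HeightOneSpectrum (𝓞 K) =>
    ArithmeticFunction.ofPowerSeries
      (Nat.card (IsLocalRing.ResidueField (v.adicCompletionIntegers K)))
      (PowerSeries.rescale (ψ v.asIdeal) (PowerSeries.map (Int.castRingHom ℂ)
        ((E.baseChange (v.adicCompletion K)).localPowerSeries (v.adicCompletionIntegers K))))

end Defs

section Agree

variable {F F' L : Type u} [Field F] [NumberField F] [Field F'] [NumberField F'] [Field L]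
  [NumberField L]

/-- The norm of the ideals of `L` to `F` along an embedding. -/
noncomputable def idealNorm (α : F →+* L) : Ideal (𝓞 L) →*₀ Ideal (𝓞 F) :=
  letI := α.toAlgebra
  Ideal.relNorm (𝓞 F)

/-- The pull backs of `ψ χ_d` and `ψ' χ_d'` to `L` by the norms along two embeddings agree. -/
def Agree (α : F →+* L) (β : F' →+* L) (d d' : ℕ) (𝔪 : Ideal (𝓞 F)) (𝔪' : Ideal (𝓞 F'))
    (ψ : Ideal (𝓞 F) →*₀ ℂ) (ψ' : Ideal (𝓞 F') →*₀ ℂ) : Prop :=
  ∀ w : HeightOneSpectrum (𝓞 L),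
    ¬ Ideal.span {((2 * d * d' : ℕ) : 𝓞 L)} * (𝔪.map (RingOfIntegers.mapRingHom α) *
      𝔪'.map (RingOfIntegers.mapRingHom β)) ≤ w.asIdeal →
    ψ (idealNorm α w.asIdeal) * (jacobiSym d (Ideal.absNorm w.asIdeal) : ℂ) =
      ψ' (idealNorm β w.asIdeal) * (jacobiSym d' (Ideal.absNorm w.asIdeal) : ℂ)

end Agree

section Mackey

variable (K : Type u) [Field K] [NumberField K] {F F' : Type u} [Field F] [NumberField F]
  [Algebra K F] [Field F'] [NumberField F'] [Algebra K F']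

/-- The representation induced from `F` to `K` by `ψ χ_d` is irreducible (criterion of Mackey). -/
def IndIrreducible (d : ℕ) (𝔪 : Ideal (𝓞 F)) (ψ : Ideal (𝓞 F) →*₀ ℂ) : Prop :=
  ∀ (L : Type u) [Field L] [NumberField L] [Algebra K L] (α β : F →ₐ[K] L),
    α.fieldRange ⊔ β.fieldRange = ⊤ → α ≠ β →
      ¬ Agree (α : F →+* L) (β : F →+* L) d d 𝔪 𝔪 ψ ψ

/-- The representations induced from `F` to `K` by `ψ χ_d` and from `F'` to `K` by `ψ' χ_d'` have a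
common constituent (criterion of Mackey). -/
def IndCommon (d d' : ℕ) (𝔪 : Ideal (𝓞 F)) (𝔪' : Ideal (𝓞 F')) (ψ : Ideal (𝓞 F) →*₀ ℂ)
    (ψ' : Ideal (𝓞 F') →*₀ ℂ) : Prop :=
  ∃ (L : Type u) (_ : Field L) (_ : NumberField L) (_ : Algebra K L) (α : F →ₐ[K] L)
    (β : F' →ₐ[K] L), α.fieldRange ⊔ β.fieldRange = ⊤ ∧
      Agree (α : F →+* L) (β : F' →+* L) d d' 𝔪 𝔪' ψ ψ'

end Mackey

/-- Few twists by the Hecke characters of the extensions of degree at most `m` have a large mean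
value, uniformly in the number fields of degree `n` and in the elliptic curves over them. -/
theorem result (n m : ℕ) (hn : 1 ≤ n) (hm : 1 ≤ m) (k k' η : ℝ) (hk : 0 < k) (hk' : 0 ≤ k')
    (hkk : k' ≤ k) (hkη : 2 * k + 2 * (n * m - 1) * k' < η) (hη : η ≤ 2) :
    ∃ κ x₀ : ℝ, 0 < κ ∧ ∀ x : ℝ, x₀ ≤ x →
      ∀ (K : Type u) [Field K] [NumberField K], Module.finrank ℚ K = n →
      ∀ (E : WeierstrassCurve K) [E.IsElliptic] (N : ℕ) (F : Fin N → Type u) [∀ i, Field (F i)]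
        [∀ i, NumberField (F i)] [∀ i, Algebra K (F i)] (d : Fin N → ℕ)
        (𝔪 : ∀ i, Ideal (𝓞 (F i))) (a : ∀ i, {w : InfinitePlace (F i) // w.IsComplex} → ℤ)
        (b : ∀ i, InfinitePlace (F i) → ℝ) (ψ : ∀ i, Ideal (𝓞 (F i)) →*₀ ℂ) (t y : Fin N → ℝ),
      (∀ i, Module.finrank K (F i) ≤ m ∧ |(discr (F i) : ℝ)| ≤ Real.exp (Real.log x ^ k') ∧
        1 ≤ d i ∧ (d i : ℝ) ≤ Real.exp (Real.log x ^ k) ∧ 𝔪 i ≠ ⊥ ∧
        (Ideal.absNorm (𝔪 i) : ℝ) ≤ Real.exp (Real.log x ^ k) ∧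
        (∀ w, |(a i w : ℝ)| ≤ Real.exp (Real.log x ^ k)) ∧
        (∀ w, |b i w| ≤ Real.exp (Real.log x ^ k)) ∧
        IsHecke (𝔪 i) (a i) (b i) (ψ i) ∧ |t i| ≤ Real.exp (Real.log x ^ k) ∧
        x ≤ y i ∧ y i ≤ Real.exp (Real.log x ^ (1 + κ)) ∧
        IndIrreducible K (d i) (𝔪 i) (ψ i)) →
      (∀ i, y i ^ (3 / 2 : ℝ) * Real.log (y i) ^ (-1 + η) <
        ‖∑ l ∈ Finset.Icc 1 ⌊y i⌋₊, coeff (twist (E.baseChange (F i)) (d i)) (ψ i) l *
          (l : ℂ) ^ (-(t i : ℂ) * Complex.I)‖) →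
      (∀ i j, i ≠ j → IndCommon K (d i) (d j) (𝔪 i) (𝔪 j) (ψ i) (ψ j) →
        Real.log x ^ (5 * (n * m) + 1) ≤ |t i - t j|) →
      (N : ℝ) ≤ 4 * (1 - k) ^ 2 / (η - 2 * k - 2 * (n * m - 1) * k') ^ 2 := by
  have hnm : (1 : ℝ) ≤ (n * m : ℕ) := by exact_mod_cast Nat.mul_pos hn hm
  have hcast : ((n * m : ℕ) : ℝ) = n * m := by push_cast; rfl
  have hNk : 0 ≤ 2 * (((n * m : ℕ) : ℝ) - 1) * k' :=
    mul_nonneg (by linarith) hk'
  rw [← hcast] at hkη
  obtain ⟨κ, x₀, hκ, h⟩ := Pool.Agent.Lib.MP_bf61d2_nt.MV59U.mean_mono.{u} n m hn hm hk hk' hkk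
    hkη (by linarith)
  refine ⟨κ, max x₀ (Real.exp 1), hκ,
    fun x hx K _ _ hK E _ N F _ _ _ d 𝔪 a b ψ t y hS hbig hsep => ?_⟩
  have hL : 1 ≤ Real.log x := by
    have h1 := (le_max_right _ _).trans hx
    rwa [Real.le_log_iff_exp_le (lt_of_lt_of_le (Real.exp_pos _) h1)]
  have hQ : Real.exp (Real.log x ^ k') ≤ Real.exp (Real.log x ^ k) :=
    Real.exp_le_exp.mpr (Real.rpow_le_rpow_of_exponent_le hL hkk)
  have hconv : ∀ (F : Type u) [Field F] [NumberField F] (𝔪 : Ideal (𝓞 F))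
      (a : {w : InfinitePlace F // w.IsComplex} → ℤ)
      (b : InfinitePlace F → ℝ) (ψ : Ideal (𝓞 F) →*₀ ℂ), IsHecke 𝔪 a b ψ ↔
      Pool.Agent.Lib.MP_bf61d2_nt.Artin.Ray.IsHe 𝔪 a b ψ := by
    intro F _ _ 𝔪 a b ψ
    refine and_congr Iff.rfl (and_congr (forall_congr' fun γ => forall_congr' fun hγ => ?_) Iff.rfl)
    have hγ' : (γ : F) ≠ 0 := RingOfIntegers.coe_ne_zero_iff.mpr hγ
    rw [Pool.Agent.Lib.MP_bf61d2_nt.Artin.Ray.lamX_emb a b hγ']
  have h1 := h x ((le_max_left _ _).trans hx) K hK E N F d 𝔪 a b ψ t y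
    (fun i => by
      obtain ⟨g1, g2, g3, g4, g5, g6, g7, g8, g9, g10, -, -, -⟩ := hS i
      exact ⟨g1, g2.trans hQ, g3, g4, g5, (hconv _ _ _ _ _).mp g9, g6, g7, g8, g10⟩)
    (fun i => (hS i).2.1)
    (fun i => ⟨(hS i).2.2.2.2.2.2.2.2.2.2.1, (hS i).2.2.2.2.2.2.2.2.2.2.2.1⟩)
    (fun i C hA => by
      by_contra hne
      exact (hS i).2.2.2.2.2.2.2.2.2.2.2.2 C.L C.α C.β C.gen hne hA)
    (fun i j hij hC => by
      obtain ⟨C, hA⟩ := hC
      exact hsep i j hij ⟨C.L, C.fld, C.nf, C.alg, C.α, C.β, C.gen, hA⟩) hbig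
  have e1 : (2 * (1 - k)) ^ 2 = 4 * (1 - k) ^ 2 := by ring
  have e2 : η - (2 * k + 2 * (((n * m : ℕ) : ℝ) - 1) * k') =
      η - 2 * k - 2 * ((n : ℝ) * m - 1) * k' := by
    rw [hcast]
    ring
  rwa [e1, e2] at h1

end Pool.Agent.Results.MP_bf61d2_nt.MeanValues
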