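import Pool.Agent.Lib.MP_bf61d2_nt.Trim.Artin.H.CONV84
import Pool.Agent.Lib.MP_bf61d2_nt.Trim.Artin.H.DefsH
import Pool.Agent.Lib.MP_bf61d2_nt.Trim.Artin.L.StmtsL63
import Pool.Agent.Lib.MP_bf61d2_nt.Trim.Artin.L.T1M73
import Pool.Agent.Lib.MP_bf61d2_nt.Trim.Artin.MO.HOMF84
import Pool.Agent.Lib.MP_bf61d2_nt.Trim.Artin.MO.MFING84
import Pool.Agent.Lib.MP_bf61d2_nt.Trim.Artin.MO.StmtsG63
import Pool.Agent.Lib.MP_bf61d2_nt.Trim.Artin.MO.StmtsM63
import Pool.Agent.Lib.MP_bf61d2_nt.Trim.Artin.R.DefsR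
import Pool.Agent.Lib.MP_bf61d2_nt.Trim.Artin.UK.StmtsU84
import Pool.Agent.Lib.MP_bf61d2_nt.Trim.Artin.UK.T1U25
import Pool.Agent.Lib.MP_bf61d2_nt.Trim.Artin.UK.UFIN84
import Pool.Agent.Lib.MP_bf61d2_nt.Trim.Artin.UK.WL1U36
import Pool.Agent.Lib.MP_bf61d2_nt.Trim.Joint.Main
import Pool.Agent.Lib.MP_bf61d2_nt.Trim.Structure

set_option autoImplicit false

/-!
MP_bf61d2_nt: let `E` be an elliptic curve over a number field `K` of degree `n`.  At every scale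
`r` the logarithmic derivatives, at distance `r` from the edge `Re s = 3/2`, of the L-functions of
the twists of the quadratic twists `E_d` of `E` over the extensions `F` of `K` of degree at most `m`
by the unitary Hecke characters of `F`, with `d`, moduli, infinity types, heights and the
discriminants of the fields `F` up to `Q`, satisfy a Bessel inequality, whose matrix is given by the
dimensions of the spaces of intertwining operators of the induced representations, without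
exceptional characters and without loss of logarithms; the constant depends only on `n` and `m`.
-/

namespace Pool.Agent.Results.MP_bf61d2_nt.TwistRepulsion

open NumberField IsDedekindDomain
open scoped Classical

universe u

section Defs

variable {K : Type u} [Field K] [NumberField K]

/-- `ψ` is a unitary Hecke character of `K` modulo `𝔪` of infinity type `(a, b)`, trivial on the
positive real numbers, as a function on the ideals, extended by zero to the ideals not prime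
to `𝔪`. -/
def IsHecke (𝔪 : Ideal (𝓞 K)) (a : {w : InfinitePlace K // w.IsComplex} → ℤ)
    (b : InfinitePlace K → ℝ) (ψ : Ideal (𝓞 K) →*₀ ℂ) : Prop :=
  ∑ w, b w = 0 ∧
  (∀ γ : 𝓞 K, γ ≠ 0 → γ - 1 ∈ 𝔪 → (∀ φ : K →+* ℝ, 0 < φ γ) → ψ (Ideal.span {γ}) =
    (∏ w : {w : InfinitePlace K // w.IsComplex},
      (w.1.embedding (γ : K) / (w.1 (γ : K) : ℂ)) ^ (a w)) *
      ∏ w : InfinitePlace K, (w (γ : K) : ℂ) ^ ((b w : ℂ) * Complex.I)) ∧
  ∀ v : HeightOneSpectrum (𝓞 K), ψ v.asIdeal = 0 ↔ 𝔪 ≤ v.asIdeal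

/-- The quadratic twist of `E` by `d`. -/
noncomputable def twist (E : WeierstrassCurve K) (d : ℕ) : WeierstrassCurve K :=
  ⟨0, (d : K) * (E.b₂ / 4), 0, (d : K) ^ 2 * (E.b₄ / 2), (d : K) ^ 3 * (E.b₆ / 4)⟩

/-- The L-function of `E` twisted by `ψ`, as an Euler product. -/
noncomputable def L (E : WeierstrassCurve K) (ψ : Ideal (𝓞 K) →*₀ ℂ) (s : ℂ) : ℂ :=
  ∏' v : HeightOneSpectrum (𝓞 K), (Polynomial.aeval
    (ψ v.asIdeal * (Ideal.absNorm v.asIdeal : ℂ) ^ (-s))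
    ((E.baseChange (v.adicCompletion K)).localPolynomial (v.adicCompletionIntegers K)))⁻¹

/-- The second moment of the traces of Frobenius: the sum of `a_v² log(N v) (N v)^(-2-r)` over the
primes `v`, where `-a_v` is the coefficient at `X` of the local polynomial of `E` at `v`. -/
noncomputable def T (E : WeierstrassCurve K) (r : ℝ) : ℝ :=
  ∑' v : HeightOneSpectrum (𝓞 K), (((E.baseChange (v.adicCompletion K)).localPolynomial
    (v.adicCompletionIntegers K)).coeff 1 : ℝ) ^ 2 * Real.log (Ideal.absNorm v.asIdeal) *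
      (Ideal.absNorm v.asIdeal : ℝ) ^ (-(2 + r))

end Defs

section Agree

variable {F F' L : Type u} [Field F] [NumberField F] [Field F'] [NumberField F'] [Field L]
  [NumberField L]

/-- The norm of the ideals of `L` to `F` along an embedding. -/
noncomputable def idealNorm (α : F →+* L) : Ideal (𝓞 L) →*₀ Ideal (𝓞 F) :=
  letI := α.toAlgebra
  Ideal.relNorm (𝓞 F)

/-- The pull backs of `ψ χ_d` and `ψ' χ_d'` to `L` by the norms along two embeddings agree. -/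
def Agree (α : F →+* L) (β : F' →+* L) (d d' : ℕ) (𝔪 : Ideal (𝓞 F)) (𝔪' : Ideal (𝓞 F'))
    (ψ : Ideal (𝓞 F) →*₀ ℂ) (ψ' : Ideal (𝓞 F') →*₀ ℂ) : Prop :=
  ∀ w : HeightOneSpectrum (𝓞 L),
    ¬ Ideal.span {((2 * d * d' : ℕ) : 𝓞 L)} * (𝔪.map (RingOfIntegers.mapRingHom α) *
      𝔪'.map (RingOfIntegers.mapRingHom β)) ≤ w.asIdeal →
    ψ (idealNorm α w.asIdeal) * (jacobiSym d (Ideal.absNorm w.asIdeal) : ℂ) =
      ψ' (idealNorm β w.asIdeal) * (jacobiSym d' (Ideal.absNorm w.asIdeal) : ℂ)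

end Agree

section Mackey

variable (K : Type u) [Field K] [NumberField K] {F F' : Type u} [Field F] [NumberField F]
  [Algebra K F] [Field F'] [NumberField F'] [Algebra K F']

open Pool.Agent.Lib.MP_bf61d2_nt.Artin.Ray (Cmp CIso)

/-- The number of the composita `(L, α, β)` of `F` and `F'` over `K`, up to isomorphism, on which
the pull backs of `ψ χ_d` and `ψ' χ_d'` agree.  By Mackey this is the dimension of the space of
intertwining operators between the representations induced to `K` from `F` by `ψ χ_d` and from `F'`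
by `ψ' χ_d'`. -/
noncomputable def homDim (d d' : ℕ) (𝔪 : Ideal (𝓞 F)) (𝔪' : Ideal (𝓞 F'))
    (ψ : Ideal (𝓞 F) →*₀ ℂ) (ψ' : Ideal (𝓞 F') →*₀ ℂ) : ℕ :=
  Nat.card (Quot fun C C' : {C : Cmp K F F' //
    Agree (C.α : F →+* C.L) (C.β : F' →+* C.L) d d' 𝔪 𝔪' ψ ψ'} => CIso C.1 C'.1)

end Mackey

/-- Repulsion at every scale for the twists by the Hecke characters of all the extensions of degree
at most `m`, uniformly in the number fields of degree `n`. -/
theorem result (n m : ℕ) :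
    ∃ C : ℝ, ∀ (K : Type u) [Field K] [NumberField K], Module.finrank ℚ K = n →
      ∀ (E : WeierstrassCurve K) [E.IsElliptic] (r : ℝ), 0 < r → r ≤ 1 / 2 →
      T E r ≤ 4 / r + C * Real.log (2 * |(discr K : ℝ)|) ∧
      ∀ (Q : ℝ), 2 ≤ Q → ∀ (N : ℕ) (F : Fin N → Type u) [∀ i, Field (F i)]
        [∀ i, NumberField (F i)] [∀ i, Algebra K (F i)] (c : Fin N → ℝ) (d : Fin N → ℕ)
        (𝔪 : ∀ i, Ideal (𝓞 (F i))) (a : ∀ i, {w : InfinitePlace (F i) // w.IsComplex} → ℤ)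
        (b : ∀ i, InfinitePlace (F i) → ℝ) (ψ : ∀ i, Ideal (𝓞 (F i)) →*₀ ℂ) (t : Fin N → ℝ),
      (∀ i, Module.finrank K (F i) ≤ m ∧ |(discr (F i) : ℝ)| ≤ Q ∧ 0 ≤ c i ∧ 1 ≤ d i ∧
        (d i : ℝ) ≤ Q ∧ 𝔪 i ≠ ⊥ ∧ (Ideal.absNorm (𝔪 i) : ℝ) ≤ Q ∧ (∀ w, |(a i w : ℝ)| ≤ Q) ∧
        (∀ w, |b i w| ≤ Q) ∧ IsHecke (𝔪 i) (a i) (b i) (ψ i) ∧ |t i| ≤ Q) →
      ‖∑ i, (c i : ℂ) * logDeriv (L (twist (E.baseChange (F i)) (d i)) (ψ i))
          ((3 / 2 + r : ℝ) + t i * Complex.I)‖ ^ 2 ≤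
        T E r / r * ∑ i, ∑ j, c i * c j * homDim K (d i) (d j) (𝔪 i) (𝔪 j) (ψ i) (ψ j) *
            (r ^ 2 / (r ^ 2 + (t i - t j) ^ 2)) +
          C * Real.log Q / r * (∑ i, c i) ^ 2 := by
  obtain ⟨C₁, hC₁, hK₁⟩ := Pool.Agent.Lib.MP_bf61d2_nt.Artin.Ray.stMAINMG.{u} n m
  obtain ⟨C₂, hC₂, hT⟩ := Pool.Agent.Lib.MP_bf61d2_nt.Artin.Ray.stT1U25.{u} n
    (Pool.Agent.Lib.MP_bf61d2_nt.Artin.Ray.stDLU.{u} n)
    (Pool.Agent.Lib.MP_bf61d2_nt.Artin.Ray.stWL1U.{u} n)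
  refine ⟨5 * C₁ + 5 * C₂, fun K _ _ hn E _ r hr hr2 => ?_⟩
  have hconv : ∀ (F : Type u) [Field F] [NumberField F] (𝔪 : Ideal (𝓞 F))
      (a : {w : InfinitePlace F // w.IsComplex} → ℤ)
      (b : InfinitePlace F → ℝ) (ψ : Ideal (𝓞 F) →*₀ ℂ), IsHecke 𝔪 a b ψ ↔
      Pool.Agent.Lib.MP_bf61d2_nt.Artin.Ray.IsHe 𝔪 a b ψ := by
    intro F _ _ 𝔪 a b ψ
    refine and_congr Iff.rfl (and_congr (forall_congr' fun γ => forall_congr' fun hγ => ?_) Iff.rfl)
    have hγ' : (γ : F) ≠ 0 := RingOfIntegers.coe_ne_zero_iff.mpr hγ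
    rw [Pool.Agent.Lib.MP_bf61d2_nt.Artin.Ray.lamX_emb a b hγ']
  have hD : 1 ≤ |(discr K : ℝ)| := by
    have h1 : discr K ≠ 0 := discr_ne_zero K
    exact_mod_cast Int.one_le_abs h1
  refine ⟨?_, fun Q hQ N F _ _ _ c d 𝔪 a b ψ t hS => ?_⟩
  · have h0 : T E r ≤ 4 / r + C₂ * Real.log (20 * |(discr K : ℝ)|) :=
      (hT K hn E r hr (by linarith)).2.1
    have h1 : Real.log (20 * |(discr K : ℝ)|) ≤ 5 * Real.log (2 * |(discr K : ℝ)|) := by
      have h3 : 20 * |(discr K : ℝ)| ≤ (2 * |(discr K : ℝ)|) ^ 5 := by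
        have h4 : (1 : ℝ) ^ 4 ≤ |(discr K : ℝ)| ^ 4 := pow_le_pow_left₀ (by norm_num) hD 4
        nlinarith [mul_le_mul_of_nonneg_left h4 (by linarith : (0 : ℝ) ≤ |(discr K : ℝ)|)]
      have h4 := Real.log_le_log (by linarith : (0 : ℝ) < 20 * |(discr K : ℝ)|) h3
      rwa [Real.log_pow] at h4
    have h2 := mul_le_mul_of_nonneg_left h1 (by linarith : (0 : ℝ) ≤ C₂)
    have h3 : 0 ≤ Real.log (2 * |(discr K : ℝ)|) := Real.log_nonneg (by linarith)
    have h4 : 0 ≤ 5 * C₁ * Real.log (2 * |(discr K : ℝ)|) := by positivity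
    linarith
  have hlQ : 0 < Real.log Q := Real.log_pos (by linarith)
  have hC₂0 : 0 ≤ C₂ := by linarith
  rcases Nat.eq_zero_or_pos N with hN | hN
  · subst hN
    simp
  have hDQ : |(discr K : ℝ)| ≤ Q := by
    have h1 := (hS ⟨0, hN⟩).2.1
    have h2 : discr K ∣ discr (F ⟨0, hN⟩) := discr_dvd_discr K (F ⟨0, hN⟩)
    have h3 : |discr K| ≤ |discr (F ⟨0, hN⟩)| :=
      Int.le_of_dvd (abs_pos.mpr (discr_ne_zero _)) ((abs_dvd_abs _ _).mpr h2)
    exact le_trans (by exact_mod_cast h3) h1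
  have hQ' : Q ≤ max Q 20 := le_max_left _ _
  have h1 := hK₁ K hn (max Q 20) (le_max_right _ _) (hDQ.trans hQ') E r hr hr2 N F d 𝔪 a b ψ t
    (fun i => by
      obtain ⟨g1, g2, -, g3, g4, g5, g6, g7, g8, g9, g10⟩ := hS i
      exact ⟨g1, g2.trans hQ', g3, g4.trans hQ', g5, (hconv _ _ _ _ _).mp g9, g6.trans hQ',
        fun w => (g7 w).trans hQ', fun w => (g8 w).trans hQ', g10.trans hQ'⟩)
    (fun i j => homDim K (d i) (d j) (𝔪 i) (𝔪 j) (ψ i) (ψ j))
    (fun i j => Pool.Agent.Lib.MP_bf61d2_nt.Artin.Ray.homLE_card84 _) c fun i => (hS i).2.2.1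
  refine h1.trans ?_
  have h2 : Real.log (max Q 20) ≤ 5 * Real.log Q := by
    have h3 : max Q 20 ≤ Q ^ 5 := by
      refine max_le ?_ ?_
      · calc Q = Q ^ 1 := (pow_one Q).symm
          _ ≤ Q ^ 5 := pow_le_pow_right₀ (by linarith) (by norm_num)
      · calc (20 : ℝ) ≤ 2 ^ 5 := by norm_num
          _ ≤ Q ^ 5 := pow_le_pow_left₀ (by norm_num) hQ 5
    have h4 := Real.log_le_log (lt_of_lt_of_le (by linarith) hQ') h3
    rwa [Real.log_pow] at h4
  have h5 : C₁ * Real.log (max Q 20) / r * (∑ i, c i) ^ 2 ≤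
      (5 * C₁ + 5 * C₂) * Real.log Q / r * (∑ i, c i) ^ 2 := by
    refine mul_le_mul_of_nonneg_right (div_le_div_of_nonneg_right ?_ hr.le) (sq_nonneg _)
    have h6 := mul_le_mul_of_nonneg_left h2 hC₁
    have h7 : 0 ≤ 5 * C₂ * Real.log Q := by positivity
    linarith
  have h6 : T E r / r * ∑ i, ∑ j, c i * c j *
      homDim K (d i) (d j) (𝔪 i) (𝔪 j) (ψ i) (ψ j) * (r ^ 2 / (r ^ 2 + (t i - t j) ^ 2)) =
      Pool.Agent.Lib.MP_bf61d2_nt.Artin.Ray.T1 E r / r * ∑ i, ∑ j, c i * c j *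
        (homDim K (d i) (d j) (𝔪 i) (𝔪 j) (ψ i) (ψ j) * (r ^ 2 / (r ^ 2 + (t i - t j) ^ 2))) := by
    simp only [mul_assoc]
    rfl
  rw [h6]
  linarith

end Pool.Agent.Results.MP_bf61d2_nt.TwistRepulsion
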